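import Mathlib
import Pool.Agent.Helper377.DivLimitInst

set_option autoImplicit false

/-!
# Sets of integers in which no member is divisible by `k` others: asymptotics with an error term

For `k, l ∈ ℕ ∪ {∞}` let `F k l n` be the largest cardinality of a set `A ⊆ [1, n]` in which every
member is a multiple of fewer than `k` other members and divides fewer than `l` other members
(`l = ∞`: no condition on the multiples).  We show `F k l n = c n + O (n / log n)`, with a constant
`c = c (k, l)` which is computable to any accuracy and an absolute constant `140` in the error term.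
The starting file `LimitFormula` has the existence of the limit of `F k ∞ n / n`.
-/

open Finset Filter Topology

namespace Pool.Agent.Results.MP_573265_nt.ErrorTerm

open Pool.Agent.Helper377.DivLimit

/-- every element of `A` is a multiple of fewer than `k` other elements of `A` and divides fewer
than `l` other elements of `A` -/
def Admissible (k l : ℕ∞) (A : Finset ℕ) : Prop :=
  ∀ a ∈ A, ((A.filter (fun b => b ≠ a ∧ b ∣ a)).card : ℕ∞) < k ∧
    ((A.filter (fun b => b ≠ a ∧ a ∣ b)).card : ℕ∞) < l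

open Classical in
/-- the largest cardinality of an admissible subset of the finite set `X` -/
noncomputable def maxAdm (k l : ℕ∞) (X : Finset ℕ) : ℕ :=
  (X.powerset.filter (fun A => Admissible k l A)).sup Finset.card

/-- `F k l n` is the largest cardinality of an admissible subset of `[1, n]` -/
noncomputable def F (k l : ℕ∞) (n : ℕ) : ℕ := maxAdm k l (Icc 1 n)

open Classical in
/-- `H k l K j` is the largest cardinality of an admissible set of integers in `[1, j]` all of
whose prime factors are smaller than `K` -/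
noncomputable def H (k l : ℕ∞) (K j : ℕ) : ℕ :=
  maxAdm k l ((Icc 1 j).filter (fun s => s ∈ Nat.smoothNumbers K))

/-- `∏ (1 - 1/p)` over the primes `p < K` times the sum of `1/s` over all `s ≥ 1` with all prime
factors smaller than `K` for which `H k l K (s - 1) < H k l K s` -/
noncomputable def lamK (k l : ℕ∞) (K : ℕ) : ℝ :=
  (∏ p ∈ Nat.primesBelow K, (1 - (p : ℝ)⁻¹)) *
    ∑' s : {s : ℕ | s ∈ Nat.smoothNumbers K ∧ H k l K (s - 1) < H k l K s}, (1 : ℝ) / (s : ℕ)

/-! ### The two-sided property -/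

theorem good (k l : ℕ∞) : Good (Admissible k l) where
  emp := fun a ha => absurd ha (Finset.notMem_empty a)
  sub := by
    intro A B hBA hA a ha
    obtain ⟨h1, h2⟩ := hA a (hBA ha)
    refine ⟨lt_of_le_of_lt ?_ h1, lt_of_le_of_lt ?_ h2⟩
    · exact_mod_cast Finset.card_le_card (Finset.filter_subset_filter _ hBA)
    · exact_mod_cast Finset.card_le_card (Finset.filter_subset_filter _ hBA)
  dil := by
    intro m hm A
    have hinj : Function.Injective (fun s : ℕ => m * s) :=
      fun x y h => Nat.eq_of_mul_eq_mul_left (Nat.pos_of_ne_zero hm) h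
    have key1 : ∀ a, ((A.image (fun s => m * s)).filter (fun b => b ≠ m * a ∧ b ∣ m * a)).card =
        (A.filter (fun b => b ≠ a ∧ b ∣ a)).card := by
      intro a
      rw [← Finset.card_image_of_injective (A.filter (fun b => b ≠ a ∧ b ∣ a)) hinj]
      congr 1
      ext x
      simp only [mem_filter, mem_image]
      constructor
      · rintro ⟨⟨b, hb, rfl⟩, h1, h2⟩
        refine ⟨b, ⟨hb, fun h => h1 (by rw [h]), ?_⟩, rfl⟩
        exact Nat.dvd_of_mul_dvd_mul_left (Nat.pos_of_ne_zero hm) h2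
      · rintro ⟨b, ⟨hb, h1, h2⟩, rfl⟩
        exact ⟨⟨b, hb, rfl⟩, fun h => h1 (hinj h), Nat.mul_dvd_mul_left m h2⟩
    have key2 : ∀ a, ((A.image (fun s => m * s)).filter (fun b => b ≠ m * a ∧ m * a ∣ b)).card =
        (A.filter (fun b => b ≠ a ∧ a ∣ b)).card := by
      intro a
      rw [← Finset.card_image_of_injective (A.filter (fun b => b ≠ a ∧ a ∣ b)) hinj]
      congr 1
      ext x
      simp only [mem_filter, mem_image]
      constructor
      · rintro ⟨⟨b, hb, rfl⟩, h1, h2⟩
        refine ⟨b, ⟨hb, fun h => h1 (by rw [h]), ?_⟩, rfl⟩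
        exact Nat.dvd_of_mul_dvd_mul_left (Nat.pos_of_ne_zero hm) h2
      · rintro ⟨b, ⟨hb, h1, h2⟩, rfl⟩
        exact ⟨⟨b, hb, rfl⟩, fun h => h1 (hinj h), Nat.mul_dvd_mul_left m h2⟩
    constructor
    · intro h a ha
      rw [← key1, ← key2]
      exact h _ (mem_image_of_mem _ ha)
    · intro h x hx
      obtain ⟨a, ha, rfl⟩ := mem_image.1 hx
      rw [key1, key2]
      exact h a ha
  loc := by
    intro K A h0 hK hc a ha
    obtain ⟨h1, h2⟩ := hc (rp K a) a (mem_filter.2 ⟨ha, rfl⟩)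
    refine ⟨lt_of_le_of_lt ?_ h1, lt_of_le_of_lt ?_ h2⟩
    · have h3 : (A.filter (fun b => b ≠ a ∧ b ∣ a)).card ≤
          ((A.filter (fun b => rp K b = rp K a)).filter (fun b => b ≠ a ∧ b ∣ a)).card := by
        apply Finset.card_le_card
        intro b hb
        obtain ⟨hb1, hb2, hb3⟩ := mem_filter.1 hb
        rw [mem_filter, mem_filter]
        exact ⟨⟨hb1, rp_eq_of_dvd (h0 b hb1) (h0 a ha) hb3 (hK b hb1 a ha)⟩, hb2, hb3⟩
      exact_mod_cast h3
    · have h3 : (A.filter (fun b => b ≠ a ∧ a ∣ b)).card ≤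
          ((A.filter (fun b => rp K b = rp K a)).filter (fun b => b ≠ a ∧ a ∣ b)).card := by
        apply Finset.card_le_card
        intro b hb
        obtain ⟨hb1, hb2, hb3⟩ := mem_filter.1 hb
        rw [mem_filter, mem_filter]
        exact ⟨⟨hb1, (rp_eq_of_dvd (h0 a ha) (h0 b hb1) hb3 (hK a ha b hb1)).symm⟩, hb2, hb3⟩
      exact_mod_cast h3

/-! ### Quantities depending on `K` -/

theorem prod_le (K : ℕ) : (∏ p ∈ Nat.primesBelow K, p) ≤ 4 ^ K := by
  refine le_trans ?_ (primorial_le_four_pow K)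
  rw [primorial_eq_prod_primesLE]
  apply Finset.prod_le_prod_of_subset_of_one_le'
  · intro p hp
    rw [Nat.mem_primesBelow] at hp
    show p ∈ Nat.primesBelow (K + 1)
    rw [Nat.mem_primesBelow]
    exact ⟨by omega, hp.2⟩
  · intro p hp _
    have hp' : p ∈ Nat.primesBelow (K + 1) := hp
    rw [Nat.mem_primesBelow] at hp'
    exact hp'.2.one_lt.le

theorem card_primesBelow_le (K : ℕ) : (Nat.primesBelow K).card ≤ K := by
  have h : (Nat.primesBelow K).card ≤ (Finset.range K).card :=
    Finset.card_le_card (Finset.filter_subset _ _)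
  simpa using h

open Classical in
theorem card_GG_le (Adm : Finset ℕ → Prop) (K n : ℕ) :
    (((Icc 1 n).filter (fun s => s ∈ GG Adm K)).card : ℝ) ≤ 2 ^ K * Real.sqrt n := by
  have h1 : (Icc 1 n).filter (fun s => s ∈ GG Adm K) ⊆ Nat.smoothNumbersUpTo n K := by
    intro s hs
    obtain ⟨h1, h2⟩ := mem_filter.1 hs
    rw [mem_Icc] at h1
    rw [Nat.mem_smoothNumbersUpTo]
    exact ⟨h1.2, h2.1⟩
  have h2 : ((Icc 1 n).filter (fun s => s ∈ GG Adm K)).card ≤ 2 ^ K * n.sqrt :=
    (Finset.card_le_card h1).trans ((Nat.smoothNumbersUpTo_card_le n K).trans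
      (Nat.mul_le_mul_right _ (Nat.pow_le_pow_right (by norm_num) (card_primesBelow_le K))))
  have h3 : (((Icc 1 n).filter (fun s => s ∈ GG Adm K)).card : ℝ) ≤
      ((2 ^ K * n.sqrt : ℕ) : ℝ) := by exact_mod_cast h2
  refine h3.trans ?_
  push_cast
  exact mul_le_mul_of_nonneg_left Real.nat_sqrt_le_real_sqrt (by positivity)

/-- inverse square root as a monoid homomorphism -/
noncomputable def isq : ℕ →* ℝ where
  toFun n := (Real.sqrt n)⁻¹
  map_one' := by simp
  map_mul' a b := by
    push_cast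
    rw [Real.sqrt_mul (Nat.cast_nonneg a), mul_inv]

theorem isq_apply (n : ℕ) : isq n = (Real.sqrt n)⁻¹ := rfl

theorem isq_le (p : ℕ) (hp : p.Prime) : isq p ≤ 3 / 4 := by
  rw [isq_apply]
  have h2 : (2 : ℝ) ≤ p := by exact_mod_cast hp.two_le
  have h1 : (4 / 3 : ℝ) ≤ Real.sqrt p := by
    apply Real.le_sqrt_of_sq_le
    norm_num
    linarith
  rw [inv_le_comm₀ (by linarith) (by norm_num)]
  linarith

theorem isq_nonneg (n : ℕ) : 0 ≤ isq n := by
  rw [isq_apply]
  positivity

open Classical in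
theorem sum_isq (K : ℕ) (u : Finset ℕ) :
    ∑ s ∈ u, (if s ∈ Nat.smoothNumbers K then isq s else 0) ≤ 4 ^ K := by
  have hlt : ∀ {p : ℕ}, p.Prime → ‖isq p‖ < 1 := by
    intro p hp
    rw [Real.norm_of_nonneg (isq_nonneg p)]
    exact lt_of_le_of_lt (isq_le p hp) (by norm_num)
  obtain ⟨h1, h2⟩ := EulerProduct.summable_and_hasSum_smoothNumbers_prod_primesBelow_geometric
    (f := isq) hlt K
  have hprod : ∏ p ∈ Nat.primesBelow K, (1 - isq p)⁻¹ ≤ 4 ^ K := by
    calc ∏ p ∈ Nat.primesBelow K, (1 - isq p)⁻¹ ≤ ∏ _p ∈ Nat.primesBelow K, (4 : ℝ) := by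
          apply Finset.prod_le_prod
          · intro p hp
            have := isq_le p (Nat.mem_primesBelow.1 hp).2
            rw [inv_nonneg]
            linarith
          · intro p hp
            have := isq_le p (Nat.mem_primesBelow.1 hp).2
            rw [inv_le_comm₀ (by linarith) (by norm_num)]
            linarith
      _ = 4 ^ (Nat.primesBelow K).card := by rw [Finset.prod_const]
      _ ≤ 4 ^ K := pow_le_pow_right₀ (by norm_num) (card_primesBelow_le K)
  have hs : Summable (fun s : ℕ => if s ∈ Nat.smoothNumbers K then isq s else 0) := by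
    have h3 : Summable ((fun m : ℕ => isq m) ∘ ((↑) : Nat.smoothNumbers K → ℕ)) := h2.summable
    have h4 := summable_subtype_iff_indicator.1 h3
    refine h4.congr (fun m => ?_)
    rw [Set.indicator_apply]
  have ht : ∑' s : ℕ, (if s ∈ Nat.smoothNumbers K then isq s else 0) =
      ∏ p ∈ Nat.primesBelow K, (1 - isq p)⁻¹ := by
    rw [← h2.tsum_eq, tsum_subtype (Nat.smoothNumbers K) (fun s : ℕ => isq s)]
    apply tsum_congr
    intro s
    rw [Set.indicator_apply]
  refine le_trans (hs.sum_le_tsum u (fun s _ => ?_)) (ht.le.trans hprod)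
  split_ifs
  · exact isq_nonneg s
  · exact le_rfl

/-- number of the rough integers up to `n / s` -/
theorem rgo_div (K n s : ℕ) (hs : 1 ≤ s) :
    |((rgo K (n / s)).card : ℝ) - n * (rho K / s)| ≤ 3 * 4 ^ K := by
  have hs0 : (0 : ℝ) < s := by exact_mod_cast hs
  have h1 := rgo_card_bound K (n / s)
  have h2 : ((n / s : ℕ) : ℝ) ≤ n / s := Nat.cast_div_le
  have h3 : (n : ℝ) / s ≤ ((n / s : ℕ) : ℝ) + 1 := by
    rw [div_le_iff₀ hs0]
    have := Nat.lt_mul_div_succ n (show 0 < s from hs)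
    have h4 : (n : ℝ) ≤ (s * (n / s + 1) : ℕ) := by exact_mod_cast this.le
    push_cast at h4
    linarith
  have hr1 := rho_nonneg K
  have hr2 := rho_le_one K
  have h5 : (n : ℝ) * (rho K / s) = rho K * (n / s) := by ring
  have h6 : ((∏ p ∈ Nat.primesBelow K, p : ℕ) : ℝ) ≤ 4 ^ K := by exact_mod_cast prod_le K
  have h7 : (1 : ℝ) ≤ 4 ^ K := one_le_pow₀ (by norm_num)
  rw [h5]
  rw [abs_le] at h1 ⊢
  have h8 := mul_le_mul_of_nonneg_left h3 hr1
  have h9 := mul_le_mul_of_nonneg_left h2 hr1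
  constructor <;> nlinarith

variable {Adm : Finset ℕ → Prop}

open Classical in
/-- the class-wise extremal function with an error term -/
theorem fK_error (h : Good Adm) (K n : ℕ) (hn : 1 ≤ n) :
    |(mx (Cl Adm K) (Icc 1 n) : ℝ) - lam Adm K * n| ≤ 4 * 8 ^ K * Real.sqrt n := by
  have hsub : GG Adm K ⊆ Nat.smoothNumbers K := fun s hs => hs.1
  have hpos : ∀ s ∈ GG Adm K, 1 ≤ s := fun s hs =>
    Nat.pos_of_ne_zero (Nat.ne_zero_of_mem_smoothNumbers (hsub hs))
  have hn0 : (0 : ℝ) < n := by exact_mod_cast hn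
  have hsq : 0 < Real.sqrt n := Real.sqrt_pos.2 hn0
  set g : ℕ → ℝ := fun s => if s ∈ GG Adm K then rho K / s else 0 with hg
  have hg0 : ∀ s, 0 ≤ g s := by
    intro s
    simp only [hg]
    split_ifs
    · exact div_nonneg (rho_nonneg K) (Nat.cast_nonneg s)
    · exact le_rfl
  have hgs : Summable g := by
    refine Summable.of_nonneg_of_le hg0 (fun s => ?_) (summable_smooth K)
    simp only [hg]
    by_cases hs : s ∈ GG Adm K
    · rw [if_pos hs, if_pos (hsub hs), div_eq_mul_inv]
      have := mul_le_mul_of_nonneg_right (rho_le_one K)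
        (inv_nonneg.2 (Nat.cast_nonneg s : (0 : ℝ) ≤ s))
      linarith
    · rw [if_neg hs]
      split_ifs <;> positivity
  have hlam : lam Adm K = ∑' s, g s := lam_eq Adm K
  -- the finite part
  have hfin : (mx (Cl Adm K) (Icc 1 n) : ℝ) =
      ∑ s ∈ (Icc 1 n).filter (fun s => s ∈ GG Adm K), ((rgo K (n / s)).card : ℝ) := by
    rw [fK_eq_card h, count_sp K n _ hsub]
    push_cast
    rfl
  have hgf : ∑ s ∈ Icc 1 n, g s =
      ∑ s ∈ (Icc 1 n).filter (fun s => s ∈ GG Adm K), rho K / (s : ℝ) := by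
    rw [Finset.sum_filter]
  have e1 : |(mx (Cl Adm K) (Icc 1 n) : ℝ) - n * ∑ s ∈ Icc 1 n, g s| ≤
      3 * 8 ^ K * Real.sqrt n := by
    rw [hfin, hgf, Finset.mul_sum, ← Finset.sum_sub_distrib]
    calc |∑ s ∈ (Icc 1 n).filter (fun s => s ∈ GG Adm K),
          (((rgo K (n / s)).card : ℝ) - n * (rho K / s))|
        ≤ ∑ s ∈ (Icc 1 n).filter (fun s => s ∈ GG Adm K),
          |((rgo K (n / s)).card : ℝ) - n * (rho K / s)| := Finset.abs_sum_le_sum_abs _ _
      _ ≤ ∑ _s ∈ (Icc 1 n).filter (fun s => s ∈ GG Adm K), (3 * 4 ^ K : ℝ) := by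
          apply Finset.sum_le_sum
          intro s hs
          exact rgo_div K n s (hpos s (mem_filter.1 hs).2)
      _ = (((Icc 1 n).filter (fun s => s ∈ GG Adm K)).card : ℝ) * (3 * 4 ^ K) := by
          rw [Finset.sum_const, nsmul_eq_mul]
      _ ≤ (2 ^ K * Real.sqrt n) * (3 * 4 ^ K) :=
          mul_le_mul_of_nonneg_right (card_GG_le Adm K n) (by positivity)
      _ = 3 * 8 ^ K * Real.sqrt n := by
          have : (8 : ℝ) ^ K = 2 ^ K * 4 ^ K := by rw [← mul_pow]; norm_num
          rw [this]; ring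
  -- the tail
  have e2 : ∑ s ∈ Icc 1 n, g s ≤ lam Adm K := by
    rw [hlam]
    exact hgs.sum_le_tsum _ (fun s _ => hg0 s)
  have e3 : lam Adm K ≤ ∑ s ∈ Icc 1 n, g s + 4 ^ K / Real.sqrt n := by
    rw [hlam]
    apply Real.tsum_le_of_sum_le hg0
    intro u
    have h1 : ∑ s ∈ u, g s ≤ ∑ s ∈ Icc 1 n, g s + ∑ s ∈ u \ Icc 1 n, g s := by
      have h2 : u ⊆ Icc 1 n ∪ (u \ Icc 1 n) := by
        intro x hx
        rw [Finset.mem_union]
        by_cases hx' : x ∈ Icc 1 n
        · exact Or.inl hx'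
        · exact Or.inr (Finset.mem_sdiff.2 ⟨hx, hx'⟩)
      refine (Finset.sum_le_sum_of_subset_of_nonneg h2 (fun s _ _ => hg0 s)).trans ?_
      rw [Finset.sum_union]
      rw [Finset.disjoint_left]
      intro x hx hx'
      exact (Finset.mem_sdiff.1 hx').2 hx
    have h3 : ∑ s ∈ u \ Icc 1 n, g s ≤
        (Real.sqrt n)⁻¹ * ∑ s ∈ u \ Icc 1 n, (if s ∈ Nat.smoothNumbers K then isq s else 0) := by
      rw [Finset.mul_sum]
      apply Finset.sum_le_sum
      intro s hs
      simp only [hg]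
      by_cases hsG : s ∈ GG Adm K
      · rw [if_pos hsG, if_pos (hsub hsG), isq_apply]
        have hs1 := hpos s hsG
        have hns : n < s := by
          by_contra hcon
          exact (Finset.mem_sdiff.1 hs).2 (mem_Icc.2 ⟨hs1, not_lt.1 hcon⟩)
        have hs0 : (0 : ℝ) < s := by exact_mod_cast hs1
        have hss : 0 < Real.sqrt s := Real.sqrt_pos.2 hs0
        have h4 : Real.sqrt n ≤ Real.sqrt s := Real.sqrt_le_sqrt (by exact_mod_cast hns.le)
        have h5 : rho K / (s : ℝ) ≤ 1 / s :=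
          div_le_div_of_nonneg_right (rho_le_one K) hs0.le
        have h6 : 1 / (s : ℝ) = (Real.sqrt s)⁻¹ * (Real.sqrt s)⁻¹ := by
          rw [← mul_inv, Real.mul_self_sqrt hs0.le, one_div]
        rw [h6] at h5
        refine h5.trans (mul_le_mul_of_nonneg_right ?_ (by positivity))
        exact inv_anti₀ hsq h4
      · rw [if_neg hsG]
        split_ifs
        · exact mul_nonneg (by positivity) (isq_nonneg s)
        · rw [mul_zero]
    have h7 : (Real.sqrt n)⁻¹ *
        ∑ s ∈ u \ Icc 1 n, (if s ∈ Nat.smoothNumbers K then isq s else 0) ≤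
        4 ^ K / Real.sqrt n := by
      rw [div_eq_inv_mul]
      exact mul_le_mul_of_nonneg_left (sum_isq K _) (by positivity)
    linarith
  have e4 : (n : ℝ) * (4 ^ K / Real.sqrt n) = 4 ^ K * Real.sqrt n := by
    rw [mul_div_assoc', div_eq_iff hsq.ne', mul_assoc, Real.mul_self_sqrt hn0.le]
    ring
  have e5 : (4 : ℝ) ^ K * Real.sqrt n ≤ 8 ^ K * Real.sqrt n :=
    mul_le_mul_of_nonneg_right (pow_le_pow_left₀ (by norm_num) (by norm_num) K) hsq.le
  have e6 := mul_le_mul_of_nonneg_left e2 hn0.le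
  have e7 := mul_le_mul_of_nonneg_left e3 hn0.le
  rw [mul_add, e4] at e7
  rw [abs_le] at e1 ⊢
  constructor <;> nlinarith

/-- the extremal function with an error term depending on `K` -/
theorem f_error (h : Good Adm) (L : ℝ) (K n : ℕ) (hn : 1 ≤ n) (hK : 1 ≤ K)
    (hL : L ≤ lam Adm K ∧ lam Adm K ≤ L + 1 / K) :
    |(mx Adm (Icc 1 n) : ℝ) - L * n| ≤ n / K + 4 * 8 ^ K * Real.sqrt n := by
  have hn0 : (0 : ℝ) < n := by exact_mod_cast hn
  have hK0 : (0 : ℝ) < K := by exact_mod_cast hK
  have h1 := fK_error h K n hn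
  have h2 : (mx Adm (Icc 1 n) : ℝ) ≤ mx (Cl Adm K) (Icc 1 n) := by exact_mod_cast f_le_fK h K n
  have h3 : (mx (Cl Adm K) (Icc 1 n) : ℝ) ≤ mx Adm (Icc 1 n) + ((n / K : ℕ) : ℝ) := by
    exact_mod_cast fK_le h hK n
  have h4 : ((n / K : ℕ) : ℝ) ≤ n / K := Nat.cast_div_le
  have h5 := mul_le_mul_of_nonneg_right hL.1 hn0.le
  have h6 := mul_le_mul_of_nonneg_right hL.2 hn0.le
  have h7 : (L + 1 / K) * (n : ℝ) = L * n + n / K := by ring
  rw [h7] at h6
  rw [abs_le] at h1 ⊢
  constructor <;> linarith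

/-- the choice of `K` -/
theorem choice (n : ℕ) (hn : 2 ≤ n) : ∃ K : ℕ, 1 ≤ K ∧
    (n : ℝ) / K + 4 * 8 ^ K * Real.sqrt n ≤ 140 * n / Real.log n := by
  have hn0 : (0 : ℝ) < n := by
    have : 0 < n := by omega
    exact_mod_cast this
  have hx : 0 < Real.log n := by
    apply Real.log_pos
    have : 1 < n := by omega
    exact_mod_cast this
  set x := Real.log n with hxdef
  have hnx : (n : ℝ) = Real.exp x := (Real.exp_log hn0).symm
  refine ⟨⌊x / 9⌋₊ + 1, by omega, ?_⟩
  have hK1 : x / 9 < ((⌊x / 9⌋₊ + 1 : ℕ) : ℝ) := by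
    push_cast
    exact Nat.lt_floor_add_one _
  have hK2 : ((⌊x / 9⌋₊ + 1 : ℕ) : ℝ) ≤ x / 9 + 1 := by
    push_cast
    have := Nat.floor_le (show 0 ≤ x / 9 by positivity)
    linarith
  set K := ⌊x / 9⌋₊ + 1 with hKdef
  have hK0 : (0 : ℝ) < K := lt_trans (by positivity) hK1
  have e1 : (n : ℝ) / K ≤ 9 * n / x := by
    rw [div_le_div_iff₀ hK0 hx]
    have : x ≤ 9 * K := by linarith
    nlinarith
  have hl8 : Real.log 8 ≤ 9 / 4 := by
    have h1 : Real.log 8 = 3 * Real.log 2 := by
      rw [show (8 : ℝ) = 2 ^ 3 by norm_num, Real.log_pow]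
      norm_num
    have h2 := Real.log_two_lt_d9
    rw [h1]
    linarith
  have hl8' : 0 ≤ Real.log 8 := Real.log_nonneg (by norm_num)
  have e2 : (8 : ℝ) ^ K ≤ 8 * Real.exp (x / 4) := by
    have h1 : (8 : ℝ) ^ K = Real.exp (K * Real.log 8) := by
      rw [mul_comm, Real.exp_mul, Real.exp_log (by norm_num), Real.rpow_natCast]
    have h2 : (K : ℝ) * Real.log 8 ≤ x / 4 + Real.log 8 := by
      have h3 := mul_le_mul_of_nonneg_right hK2 hl8'
      have h4 : x / 9 * Real.log 8 ≤ x / 9 * (9 / 4) :=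
        mul_le_mul_of_nonneg_left hl8 (by positivity)
      linarith
    rw [h1]
    refine (Real.exp_le_exp.2 h2).trans ?_
    rw [Real.exp_add, Real.exp_log (by norm_num), mul_comm]
  have e3 : Real.sqrt n = Real.exp (x / 2) := by
    rw [hnx, Real.exp_half]
  have e4 : x ≤ 4 * Real.exp (x / 4) := by
    have := Real.add_one_le_exp (x / 4)
    linarith
  have e5 : 4 * (8 : ℝ) ^ K * Real.sqrt n ≤ 128 * n / x := by
    rw [e3, le_div_iff₀ hx]
    have h1 : (8 : ℝ) ^ K * x ≤ (8 * Real.exp (x / 4)) * (4 * Real.exp (x / 4)) :=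
      mul_le_mul e2 e4 hx.le (by positivity)
    have h2 : Real.exp (x / 4) * Real.exp (x / 4) = Real.exp (x / 2) := by
      rw [← Real.exp_add]
      congr 1
      ring
    have h3 : Real.exp (x / 2) * Real.exp (x / 2) = n := by
      rw [← Real.exp_add, hnx]
      congr 1
      ring
    calc 4 * (8 : ℝ) ^ K * Real.exp (x / 2) * x = 4 * ((8 : ℝ) ^ K * x) * Real.exp (x / 2) := by
          ring
      _ ≤ 4 * ((8 * Real.exp (x / 4)) * (4 * Real.exp (x / 4))) * Real.exp (x / 2) := by
          apply mul_le_mul_of_nonneg_right _ (Real.exp_pos _).le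
          linarith
      _ = 128 * ((Real.exp (x / 4) * Real.exp (x / 4)) * Real.exp (x / 2)) := by ring
      _ = 128 * n := by rw [h2, h3]
  have e6 : 9 * (n : ℝ) / x + 128 * n / x ≤ 140 * n / x := by
    rw [← add_div]
    apply div_le_div_of_nonneg_right _ hx.le
    linarith
  linarith

/-- **Asymptotics with an error term.** For all `k, l ∈ ℕ ∪ {∞}` there is a real `c` such that the
largest cardinality `F k l n` of a set `A ⊆ [1, n]`, in which every member is a multiple of fewer
than `k` and divides fewer than `l` other members, satisfies `|F k l n - c n| ≤ 140 n / log n` for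
all `n ≥ 2`; and `c ≤ lamK k l K ≤ c + 1 / K` for all `K ≥ 1`. -/
theorem result : ∀ k l : ℕ∞, ∃ c : ℝ,
    (∀ n : ℕ, 2 ≤ n → |(F k l n : ℝ) - c * n| ≤ 140 * n / Real.log n) ∧
    ∀ K : ℕ, 1 ≤ K → c ≤ lamK k l K ∧ lamK k l K ≤ c + 1 / K := by
  intro k l
  obtain ⟨L, -, h2⟩ := limit (good k l)
  have hlam : ∀ K, lamK k l K = lam (Admissible k l) K := fun K => rfl
  refine ⟨L, fun n hn => ?_, fun K hK => ?_⟩
  · obtain ⟨K, hK, hK'⟩ := choice n hn
    exact (f_error (good k l) L K n (by omega) hK (h2 K hK)).trans hK'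
  · rw [hlam]
    exact h2 K hK

end Pool.Agent.Results.MP_573265_nt.ErrorTerm
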